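import Pool.Agent.H63.Vague.Final

set_option autoImplicit false
open MeasureTheory
open scoped ENNReal
open Pool.Agent.H63.Vague

namespace Pool.Agent.Results.MP_ec348e_an.VagueNotMean

/-- There are a countable discrete group `G` and a complex measure `μ` on `G` which is
vague-ergodic, while for every left Haar measure and every exponent `1 ≤ p ≤ ∞` the convolution
operator `λ_p(μ)` is not mean ergodic. -/
theorem result :
    ∃ (G : Type) (_ : Group G) (_ : Countable G) (_ : TopologicalSpace G) (_ : DiscreteTopology G)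
      (_ : MeasurableSpace G) (_ : BorelSpace G) (μ : ComplexMeasure G),
      VagueErgodic μ ∧
      ∀ (ν : Measure G) [ν.IsHaarMeasure] (p : ℝ≥0∞) [Fact (1 ≤ p)],
        ∃ T : Lp ℂ p ν →L[ℂ] Lp ℂ p ν, IsConvolutionOperator μ ν p T ∧ ¬ MeanErgodic T := by
  let t : TopologicalSpace Grp := ⊥
  have hd : DiscreteTopology Grp := ⟨rfl⟩
  let m : MeasurableSpace Grp := ⊤
  have hb : BorelSpace Grp := ⟨by
    symm
    refine le_antisymm le_top ?_
    intro s _
    exact MeasurableSpace.measurableSet_generateFrom (isOpen_discrete s)⟩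
  refine ⟨Grp, inferInstance, inferInstance, t, hd, m, hb, toM aa, vagueErgodic_aa, ?_⟩
  intro ν _ p _
  exact ⟨oper ν p aa, isConvolutionOperator_oper aa, not_meanErgodic ν p⟩

end Pool.Agent.Results.MP_ec348e_an.VagueNotMean
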